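import Pool.Agent.H.MP_18dddc_an.B

namespace Pool.Agent.Results.MP_18dddc_an.Yes

open PowerSeries Finset Filter Topology Metric Pool.Agent.H.MP_18dddc_an
open scoped Nat

/-- complex Euclidean space -/
abbrev V (d : ℕ) := EuclideanSpace ℂ (Fin d)

/-- y is the value at s = 1 of a solution of y' = τ f(y) on the unit interval started at x -/
def IsFlow {d : ℕ} (f : V d → V d) (τ : ℂ) (x y : V d) : Prop :=
  ∃ γ : ℝ → V d, γ 0 = x ∧ γ 1 = y ∧
    ∀ s ∈ Set.Icc (0 : ℝ) 1, HasDerivWithinAt γ (τ • f (γ s)) (Set.Icc 0 1) s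

/-- z is the result of the composition of flows with coefficient list l, applied to x; the head
of the list is the outermost pair of flows -/
def Split {d : ℕ} (f₀ f₁ : V d → V d) (T : ℝ) (x : V d) : List (ℂ × ℂ) → V d → Prop
  | [], z => z = x
  | p :: l, z => ∃ w, (∃ y, Split f₀ f₁ T x l y ∧ IsFlow f₁ (p.2 * T) y w) ∧
      IsFlow f₀ (p.1 * T) w z

/-- the list of pairs of coefficients is a splitting method of order N -/
def IsMethod (l : List (ℂ × ℂ)) (N : ℕ) : Prop :=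
  l ≠ [] ∧ ∀ (d : ℕ) (f₀ f₁ : V d → V d), Differentiable ℂ f₀ → Differentiable ℂ f₁ → ∀ x₀ : V d,
    ∃ C T₀ : ℝ, 0 < T₀ ∧ ∀ T : ℝ, 0 < T → T < T₀ →
      (∃ y, IsFlow (f₀ + f₁) T x₀ y) ∧ (∃ z, Split f₀ f₁ T x₀ l z) ∧
      ∀ y z, IsFlow (f₀ + f₁) T x₀ y → Split f₀ f₁ T x₀ l z → ‖y - z‖ ≤ C * T ^ (N + 1)

variable {d : ℕ}

theorem hol1 {g : V d → V d} (hg : Differentiable ℂ g) (v : V d) :
    Differentiable ℂ fun x => fderiv ℂ g x v := by
  have h1 : ∀ x v, fderiv ℂ g x v = (2 * Real.pi * Complex.I : ℂ)⁻¹ • ∫ θ in (0 : ℝ)..2 * Real.pi,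
      (fun θ => deriv (circleMap 0 1) θ * (1 / (circleMap 0 1 θ - 0) ^ 2)) θ •
        g (x + circleMap 0 1 θ • v) :=
    fun x v => by
      have h1 := DifferentiableOn.deriv_eq_smul_circleIntegral (c := 0) one_pos
        (f := fun ζ : ℂ => g (x + ζ • v)) (Differentiable.differentiableOn (by fun_prop))
      have h2 : HasDerivAt (fun ζ : ℂ => g (x + ζ • v)) (fderiv ℂ g x v) 0 := by
        have := (hg (x + (0 : ℂ) • v)).hasFDerivAt.comp_hasDerivAt (0 : ℂ)
          (((hasDerivAt_id (0 : ℂ)).smul_const v).const_add x)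
        rwa [one_smul, zero_smul, add_zero] at this
      rw [h2.deriv, circleIntegral] at h1
      simp only [smul_smul] at h1
      rw [h1, smul_smul, inv_mul_cancel₀ Complex.two_pi_I_ne_zero, one_smul]
  have hc : Continuous fun θ => deriv (circleMap 0 1) θ * (1 / (circleMap 0 1 θ - 0) ^ 2) := by
    simp only [deriv_circleMap, sub_zero]
    fun_prop (disch := simp)
  generalize (fun θ => deriv (circleMap 0 1) θ * (1 / (circleMap 0 1 θ - 0) ^ 2)) = k at hc h1
  have h2 : Continuous (fderiv ℂ g) := continuous_clm_apply.2 fun v => by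
    have := hg.continuous
    simp only [h1]
    exact (intervalIntegral.continuous_parametric_intervalIntegral_of_continuous'
      (f := fun x θ => k θ • g (x + circleMap 0 1 θ • v)) (μ := MeasureTheory.volume) (by fun_prop) _ _).fun_const_smul _
  intro x
  obtain ⟨K, hK⟩ := ((isCompact_closedBall x 1).prod (isCompact_uIcc (a := 0)
    (b := 2 * Real.pi))).exists_bound_of_continuousOn (f := fun p : V d × ℝ =>
      k p.2 • fderiv ℂ g (p.1 + circleMap 0 1 p.2 • v)) (Continuous.continuousOn (by fun_prop))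
  have := hg.continuous
  simp only [h1 _ v]
  exact (intervalIntegral.hasFDerivAt_integral_of_dominated_of_fderiv_le (𝕜 := ℂ)
    (F := fun x θ => k θ • g (x + circleMap 0 1 θ • v)) (F' := fun x θ => k θ •
      fderiv ℂ g (x + circleMap 0 1 θ • v)) (bound := fun _ => K) (closedBall_mem_nhds x one_pos)
    (Eventually.of_forall fun _ => Continuous.aestronglyMeasurable (by fun_prop))
    (Continuous.intervalIntegrable (by fun_prop) _ _) (Continuous.aestronglyMeasurable (by fun_prop))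
    (Eventually.of_forall fun θ hθ y hy => hK (y, θ) ⟨hy, Set.uIoc_subset_uIcc hθ⟩)
    intervalIntegrable_const (Eventually.of_forall fun θ _ y _ =>
      ((hasFDerivAt_comp_add_right _).2 (hg _).hasFDerivAt).fun_const_smul _)).differentiableAt.fun_const_smul _

theorem hol (n : ℕ) : ∀ {g : V d → V d}, Differentiable ℂ g → ContDiff ℂ n g := by
  induction n with
  | zero => exact fun hg => contDiff_zero.2 hg.continuous
  | succ n ih =>
    exact fun hg => contDiff_succ_iff_fderiv_apply.2 ⟨hg, by simp, fun v => ih (hol1 hg v)⟩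

/-- holomorphic maps -/
def H (d : ℕ) : Submodule ℂ (V d → V d) where
  carrier := {g | Differentiable ℂ g}
  add_mem' := Differentiable.add
  zero_mem' := differentiable_const _
  smul_mem' c _ h := h.const_smul c

/-- Lie derivative -/
noncomputable def Lie (f : H d) : Module.End ℂ (H d) where
  toFun g := ⟨fun x => fderiv ℂ g.1 x (f.1 x),
    (((hol 2 g.2).fderiv_right (m := 1) le_rfl).differentiable one_ne_zero).clm_apply f.2⟩
  map_add' g h := Subtype.ext (funext fun x => by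
    simp [fderiv_add (g.2 x) (h.2 x)])
  map_smul' c g := Subtype.ext (funext fun x => by
    simp [fderiv_const_smul (g.2 x)])

theorem Lie_add (f g : H d) : Lie (f + g) = Lie f + Lie g := by
  ext
  simp [Lie]

theorem lip (f : H d) (x : V d) (r : ℝ) : ∃ K, LipschitzOnWith K f.1 (closedBall x r) :=
  (hol 1 f.2).locallyLipschitz.locallyLipschitzOn.exists_lipschitzOnWith_of_compact
    (isCompact_closedBall _ _)

theorem flow (f : H d) (x₀ : V d) : ∃ δ : ℝ, 0 < δ ∧ ∀ τ : ℂ, ‖τ‖ ≤ δ → ∀ x ∈ closedBall x₀ 1,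
    ∃ γ : ℝ → V d, γ 0 = x ∧ (∀ s, γ s ∈ closedBall x₀ 2) ∧ (∀ s ∈ Set.Icc (0 : ℝ) 1,
      HasDerivWithinAt γ (τ • f.1 (γ s)) (Set.Icc 0 1) s) ∧ ∀ y, IsFlow f.1 τ x y → y = γ 1 := by
  obtain ⟨K, hK⟩ := lip f x₀ 2
  obtain ⟨L, hL⟩ := (isCompact_closedBall x₀ 2).exists_bound_of_continuousOn
    (Differentiable.continuous f.2).continuousOn
  refine ⟨(|L| + 1)⁻¹, by positivity, fun τ hτ x hx => ?_⟩
  have hf : IsPicardLindelof (fun _ y => τ • f.1 y) (tmin := 0) (tmax := 1) ⟨0, by simp⟩ x₀ 2 1 1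
      (‖τ‖₊ * K) := .of_time_independent (fun y hy => by
        rw [norm_smul]
        refine (mul_le_mul hτ ((hL y hy).trans (by linarith [le_abs_self L] : L ≤ |L| + 1))
          (norm_nonneg _) (by positivity)).trans_eq (inv_mul_cancel₀ (by positivity)))
      ((lipschitzWith_smul τ).comp_lipschitzOnWith hK) (by norm_num)
  obtain ⟨α, hα⟩ := ODE.FunSpace.exists_isFixedPt_next hf hx
  have h1 : α.compProj 0 = x := by
    rw [ODE.FunSpace.compProj_of_mem (by simp), ← hα, ODE.FunSpace.next_apply₀]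
  have h2 : ∀ s ∈ Set.Icc (0 : ℝ) 1, HasDerivWithinAt α.compProj (τ • f.1 (α.compProj s))
      (Set.Icc 0 1) s := fun t ht => by
    apply ODE.hasDerivWithinAt_picard_Icc (t₀ := 0) (by simp) hf.continuousOn_uncurry
      α.continuous_compProj.continuousOn (fun _ _ => α.compProj_mem_closedBall hf.mul_max_le)
      x ht |>.congr_of_mem _ ht
    intro t' ht'
    nth_rw 1 [← hα]
    rw [ODE.FunSpace.compProj_of_mem ht', ODE.FunSpace.next_apply]
  refine ⟨α.compProj, h1, fun _ => α.compProj_mem_closedBall hf.mul_max_le, h2, ?_⟩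
  rintro _ ⟨γ, h3, rfl, h4⟩
  have h5 : ContinuousOn γ (Set.Icc 0 1) := fun s hs => (h4 s hs).continuousWithinAt
  obtain ⟨r, hr⟩ := (isCompact_Icc.image_of_continuousOn h5).isBounded.subset_closedBall x₀
  obtain ⟨K', hK'⟩ := lip f x₀ (max r 2)
  exact ODE_solution_unique_of_mem_Icc_right (v := fun _ y => τ • f.1 y)
    (s := fun _ => closedBall x₀ (max r 2))
    (fun _ _ => (lipschitzWith_smul τ).comp_lipschitzOnWith hK') h5
    (fun s hs => (h4 s (Set.Ico_subset_Icc_self hs)).mono_of_mem_nhdsWithin (Icc_mem_nhdsGE_of_mem hs))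
    (fun s hs => closedBall_subset_closedBall (le_max_left _ _)
      (hr ⟨s, Set.Ico_subset_Icc_self hs, rfl⟩)) α.continuous_compProj.continuousOn
    (fun s hs => (h2 s (Set.Ico_subset_Icc_self hs)).mono_of_mem_nhdsWithin (Icc_mem_nhdsGE_of_mem hs))
    (fun s _ => closedBall_subset_closedBall (le_max_right _ _)
      (α.compProj_mem_closedBall hf.mul_max_le)) (h3.trans h1.symm) (by simp)

theorem taylor (f : H d) (x₀ : V d) (M : ℕ) : ∀ g : H d, ∃ C : ℝ, ∀ (τ : ℂ) (γ : ℝ → V d),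
    (∀ s, γ s ∈ closedBall x₀ 2) → (∀ s ∈ Set.Icc (0 : ℝ) 1,
      HasDerivWithinAt γ (τ • f.1 (γ s)) (Set.Icc 0 1) s) → ∀ s ∈ Set.Icc (0 : ℝ) 1,
    ‖g.1 (γ s) - ∑ n ∈ range M, ((s * τ) ^ n / n !) • ((Lie f ^ n) g).1 (γ 0)‖ ≤ C * ‖τ‖ ^ M := by
  induction M with
  | zero =>
    intro g
    obtain ⟨C, hC⟩ := (isCompact_closedBall x₀ 2).exists_bound_of_continuousOn
      (Differentiable.continuous g.2).continuousOn
    exact ⟨C, fun τ γ h1 _ s _ => by simpa using hC _ (h1 s)⟩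
  | succ M ih =>
    intro g
    obtain ⟨C, hC⟩ := ih (Lie f g)
    refine ⟨C, fun τ γ h1 h2 s hs => ?_⟩
    have h3 := norm_image_sub_le_of_norm_deriv_le_segment' (C := C * ‖τ‖ ^ (M + 1))
      (f := fun s : ℝ => g.1 (γ s) - ∑ n ∈ range M, ((s * τ) ^ (n + 1) / (n + 1)!) •
        ((Lie f ^ n) (Lie f g)).1 (γ 0))
      (f' := fun s : ℝ => τ • ((Lie f g).1 (γ s) - ∑ n ∈ range M, ((s * τ) ^ n / n !) •
        ((Lie f ^ n) (Lie f g)).1 (γ 0))) (a := 0) (b := 1) (fun s hs => ?_) (fun s hs => ?_) s hs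
    · simp only [Complex.ofReal_zero, zero_mul, ne_eq, Nat.add_eq_zero_iff, one_ne_zero, and_false,
        not_false_eq_true, zero_pow, zero_div, zero_smul, sum_const_zero, sub_zero] at h3
      have h4 := (norm_nonneg _).trans (hC τ γ h1 h2 s hs)
      rw [sum_range_succ', ← sub_sub]
      simp only [pow_succ (Lie f), Module.End.mul_apply, pow_zero, Nat.factorial_zero, Nat.cast_one,
        div_one, one_smul, Module.End.one_apply]
      refine h3.trans (mul_le_of_le_one_right ?_ hs.2)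
      rw [pow_succ, ← mul_assoc]
      positivity
    · rw [smul_sub, smul_sum]
      refine HasDerivWithinAt.sub ?_ (HasDerivWithinAt.fun_sum fun n _ => ?_)
      · have := ((g.2 (γ s)).hasFDerivAt.restrictScalars ℝ).comp_hasDerivWithinAt s (h2 s hs)
        rwa [ContinuousLinearMap.coe_restrictScalars', map_smul] at this
      · have := ((((hasDerivAt_id (s : ℂ)).mul_const τ).fun_pow (n + 1)).div_const
          ((n + 1)! : ℂ)).comp_ofReal.smul_const (((Lie f ^ n) (Lie f g)).1 (γ 0))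
        refine this.hasDerivWithinAt.congr_deriv ?_
        rw [smul_smul, Nat.factorial_succ]
        congr 1
        push_cast
        field_simp
        simp [mul_comm]
    · rw [norm_smul, pow_succ', mul_left_comm]
      exact mul_le_mul_of_nonneg_left (hC τ γ h1 h2 s (Set.Ico_subset_Icc_self hs)) (norm_nonneg _)

/-- asymptotic expansion of the points described by P -/
def Ex (ρ : FA →ₐ[ℂ] Module.End ℂ (H d)) (x₀ : V d) (P : ℝ → V d → Prop) (w : FA⟦X⟧) : Prop :=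
  constantCoeff w = 1 ∧ (∀ᶠ T in 𝓝[>] 0, ∃ z, P T z) ∧ ∀ (M : ℕ) (g : H d), ∃ C : ℝ,
    ∀ᶠ T in 𝓝[>] 0, ∀ z, P T z →
      ‖g.1 z - ∑ n ∈ range M, (T : ℂ) ^ n • (ρ (coeff n w) g).1 x₀‖ ≤ C * T ^ M

theorem Ex.base (ρ : FA →ₐ[ℂ] Module.End ℂ (H d)) (x₀ : V d) : Ex ρ x₀ (fun _ z => z = x₀) 1 := by
  refine ⟨by simp, by simp, fun M g => ⟨‖g.1 x₀‖, ?_⟩⟩
  filter_upwards [self_mem_nhdsWithin] with T hT
  rintro _ rfl
  have : 0 < T := hT
  cases M with
  | zero => simp
  | succ M =>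
    simp [sum_range_succ', coeff_one]
    positivity

theorem Ex.step {ρ : FA →ₐ[ℂ] Module.End ℂ (H d)} {x₀ : V d} {P : ℝ → V d → Prop} {w : FA⟦X⟧}
    (h : Ex ρ x₀ P w) {a : FA} {c : ℂ} {f : H d} (ha : ρ a = c • Lie f) :
    Ex ρ x₀ (fun T z => ∃ y, P T y ∧ IsFlow f.1 (c * T) y z) (w * E a) := by
  obtain ⟨h0, h1, h2⟩ := h
  obtain ⟨δ, hδ, h3⟩ := flow f x₀
  have h4 : ∀ (C ε : ℝ), 0 < ε → ∀ᶠ T in 𝓝[>] (0 : ℝ), C * T ≤ ε := fun C ε hε =>
    nhdsWithin_le_nhds ((Continuous.tendsto' (f := fun T : ℝ => C * T) (by fun_prop) 0 0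
      (mul_zero C)).eventually (eventually_le_nhds hε))
  have h5 : ∀ᶠ T in 𝓝[>] (0 : ℝ), ∀ z, P T z → z ∈ closedBall x₀ 1 := by
    obtain ⟨C, hC⟩ := h2 1 ⟨id, differentiable_id⟩
    filter_upwards [hC, h4 C 1 one_pos] with T h5 h6 z hz
    have := h5 z hz
    simp only [range_one, sum_singleton, pow_zero, coeff_zero_eq_constantCoeff, h0, map_one,
      Module.End.one_apply, one_smul, id, pow_one] at this
    exact mem_closedBall_iff_norm.2 (this.trans h6)
  have h6 : ∀ᶠ T in 𝓝[>] (0 : ℝ), 0 < T ∧ ‖c * (T : ℝ)‖ ≤ δ := by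
    filter_upwards [self_mem_nhdsWithin, h4 ‖c‖ δ hδ] with T hT h6
    exact ⟨hT, by rwa [norm_mul, Complex.norm_real, Real.norm_of_nonneg (le_of_lt hT)]⟩
  refine ⟨by simp [h0, E0], ?_, fun M g => ?_⟩
  · filter_upwards [h1, h5, h6] with T ⟨y, hy⟩ h7 h8
    obtain ⟨γ, h9, -, h10, -⟩ := h3 _ h8.2 y (h7 y hy)
    exact ⟨_, y, hy, γ, h9, rfl, h10⟩
  obtain ⟨C, hC⟩ := taylor f x₀ M g
  choose K hK using fun n => h2 (M - n) ((Lie f ^ n) g)
  refine ⟨C * ‖c‖ ^ M + ∑ n ∈ range M, ‖c ^ n / (n !)‖ * K n, ?_⟩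
  filter_upwards [h5, h6, (range M).eventually_all.2 fun n _ => hK n] with T h7 h8 h9
  rintro z ⟨y, hy, hz⟩
  obtain ⟨γ, rfl, h10, h11, h12⟩ := h3 _ h8.2 y (h7 y hy)
  have h13 := hC _ γ h10 h11 1 (by simp)
  have h14 : ∑ n ∈ range M, (T : ℂ) ^ n • (ρ (coeff n (w * E a)) g).1 x₀ =
      ∑ n ∈ range M, ((T : ℂ) ^ n * (c ^ n / n !)) • ∑ m ∈ range (M - n),
        (T : ℂ) ^ m • (ρ (coeff m w) ((Lie f ^ n) g)).1 x₀ := by
    simp only [smul_sum]
    rw [← sum_range_diag_flip]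
    refine sum_congr rfl fun n _ => ?_
    rw [coeff_mul, ← Nat.sum_antidiagonal_swap, Nat.sum_antidiagonal_eq_sum_range_succ_mk, map_sum,
      LinearMap.sum_apply, Submodule.coe_sum, Finset.sum_apply, smul_sum]
    refine sum_congr rfl fun k hk => ?_
    simp only [Prod.swap, E, coeff_mk, map_mul, map_smul, map_pow, ha, smul_pow, Module.End.mul_apply,
      LinearMap.smul_apply, Submodule.coe_smul, Pi.smul_apply, smul_smul]
    congr 1
    conv_lhs => rw [← Nat.add_sub_cancel' (mem_range_succ_iff.1 hk), pow_add]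
    ring
  rw [h12 z hz, h14, add_mul, sum_mul]
  rw [norm_mul, Complex.norm_real, Real.norm_of_nonneg h8.1.le, mul_pow, ← mul_assoc C] at h13
  refine (norm_sub_le_norm_sub_add_norm_sub _ _ _).trans (add_le_add h13 ?_)
  rw [← sum_sub_distrib]
  refine norm_sum_le_of_le _ fun n hn => ?_
  rw [show ((1 : ℝ) * (c * T) : ℂ) ^ n / n ! = T ^ n * (c ^ n / n !) by push_cast; ring, ← smul_sub,
    norm_smul, norm_mul, norm_pow, Complex.norm_real, Real.norm_of_nonneg h8.1.le]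
  refine (mul_le_mul_of_nonneg_left (h9 n hn _ hy) (by have := h8.1; positivity)).trans_eq ?_
  conv_rhs => rw [← Nat.add_sub_cancel' (mem_range.1 hn).le, pow_add]
  ring

theorem result (N : ℕ) : ∃ l : List (ℂ × ℂ),
    (∀ p ∈ l, 0 < p.1.re ∧ p.1.im = 0 ∧ 0 < p.2.re) ∧ IsMethod l N := by
  obtain ⟨l, h1, h2, h3⟩ := formal N
  refine ⟨l.reverse.map fun x => (x.1, x.2), fun p hp => by
    obtain ⟨x, hx, rfl⟩ := List.mem_map.1 hp
    simpa using h2 x (List.mem_reverse.1 hx), by simpa using h1,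
    fun d f₀ f₁ h4 h5 x₀ => ?_⟩
  set ρ := hom (Lie (⟨f₀, h4⟩ + ⟨f₁, h5⟩ : H d)) (Lie ⟨f₁, h5⟩) with hρ
  have h6 : ∀ l : List (ℝ × ℂ), Ex ρ x₀ (fun T => Split f₀ f₁ T x₀ (l.map fun x => (x.1, x.2)))
      (l.reverse.map fun x => E (lin 0 x.2) * E (lin x.1 (-x.1))).prod := fun l => by
    induction l with
    | nil => exact Ex.base ρ x₀
    | cons p l ih =>
      rw [List.reverse_cons, List.map_append, List.prod_append, List.map_singleton,
        List.prod_singleton, ← mul_assoc]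
      exact (ih.step (c := p.2) (f := ⟨f₁, h5⟩) (by simp [hρ, hom_lin])).step (c := p.1)
        (f := ⟨f₀, h4⟩) (by
          rw [hρ, hom_lin, Lie_add]
          module)
  obtain ⟨-, h7, h8⟩ := h6 l.reverse
  obtain ⟨-, h9, h10⟩ := (Ex.base ρ x₀).step (a := lin 1 0) (c := 1) (f := ⟨f₀, h4⟩ + ⟨f₁, h5⟩)
    (by simp [hρ, hom_lin])
  obtain ⟨C, hC⟩ := h8 (N + 1) ⟨id, differentiable_id⟩
  obtain ⟨C', hC'⟩ := h10 (N + 1) ⟨id, differentiable_id⟩
  obtain ⟨T₀, h11, h12⟩ := mem_nhdsGT_iff_exists_Ioo_subset.1 ((h7.and h9).and (hC.and hC'))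
  refine ⟨C' + C, T₀, h11, fun T h13 h14 => ?_⟩
  obtain ⟨⟨h15, y, _, rfl, h16⟩, h17, h18⟩ := h12 ⟨h13, h14⟩
  refine ⟨⟨y, by simpa using h16⟩, h15, fun y z hy hz => ?_⟩
  have h19 := h17 z hz
  rw [List.reverse_reverse, sum_congr rfl fun n hn => by rw [h3 n (mem_range_succ_iff.1 hn)],
    norm_sub_rev] at h19
  have h20 := h18 y ⟨_, rfl, by simpa using hy⟩
  rw [one_mul] at h20
  exact (norm_sub_le_norm_sub_add_norm_sub _ _ _).trans ((add_le_add h20 h19).trans_eq (by ring))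

end Pool.Agent.Results.MP_18dddc_an.Yes
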